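import Pool.Agent.NQ.KFin

/-!
# MP_6ea1bd_co: a power saving for the number of n-queens configurations

There are real numbers `α` and `C` such that `|log Q(n) - n log n + α n| ≤ C n^(1 - 1/500)` for all
`n ≥ 1`, where `Q(n)` is the number of configurations of `n` non-attacking queens.
-/

namespace Pool.Agent.Helper79.Kept.PowerSaving

open Pool.Agent.NQ

theorem result : ∃ α C : ℝ, ∀ n : ℕ, 1 ≤ n →
    |Real.log (QN n) - n * Real.log n + α * n| ≤ C * (n : ℝ) ^ (1 - 1 / 500 : ℝ) :=
  power_saving

end Pool.Agent.Helper79.Kept.PowerSaving
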